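import Pool.Agent.Lib.MP_ab8df0_nt.T.N15b
import Pool.Agent.Lib.MP_ab8df0_nt.T.B63a.Core
import Pool.Agent.Lib.MP_ab8df0_nt.T.B63b.Core
import Pool.Agent.Lib.MP_ab8df0_nt.P.N3

/-! The case of the third power of the unit. -/

namespace Pool.Agent.Lib.MP_ab8df0_nt.T.B63

open B C P N15b

theorem bb' {K : Type} [Field K] [NumberField K] {a : K} {pl : List (Place K)}
    {ph : List (K →+* ℝ)}
    {w : List (IsDedekindDomain.HeightOneSpectrum (NumberField.RingOfIntegers K))}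
    (hP : Pack K FDN3 a pl ph w) : BB63 := by
  intro x y z hz h hf
  have r1 := B63a.relT hP
  have ht : cval a B63a.vs 4 ^ 3 = 2 := by linear_combination B63a.relC hP
  have e1 : cval a B63b.vs 11 = cval a B63a.vs 4 := by
    linear_combination (1 / 4) * (B63b.relT hP - r1)
  have hb : 4 * ((cval a B63a.vs 4 - 1) * a ^ 4 / 4) ^ 5 =
      e3 (cval a B63a.vs 4) (m3 2 eps2 (m3 2 eps2 eps2)) ^ 3 := by
    generalize cval a B63a.vs 4 = T at r1 ht
    have h5 : a ^ 5 = 4 * (T - 1) := by linear_combination -r1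
    have h3 : e3 T (m3 2 eps2 (m3 2 eps2 eps2)) = (T - 1) ^ 3 := by
      simp only [e3, m3, eps2]
      push_cast
      linear_combination -ht
    rw [h3, show 4 * ((T - 1) * a ^ 4 / 4) ^ 5 = (T - 1) ^ 5 * (a ^ 5) ^ 4 / 256 by ring, h5]
    ring
  obtain ⟨t, g, X, h0, hd, h1, hg0, hg, hX⟩ := setup ht hb hz h hf
  by_contra hn
  refine B63a.core hP t g X hd hg hX (delta_even hg0 hX) (fun _ _ φ _ => delta_pos hg0 hX φ)
    fun hs => ?_
  rw [← e1] at h1 hg
  have hs' : IsSquare ((X - 1) * cval a B63b.vs 35) := hs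
  have hq : (1 : K) * t - 1 ≠ 0 := by
    simpa using ne_of (p := 1) (q := 1) h0 (by simpa using hn)
  exact lev2 h1 hg0 hg hX hs' (B63b.relA hP) (B63b.relB hP) (B63b.relL hP) (B63b.relG hP)
    (B63b.relX hP) (B63b.relU hP) (B63b.relx hP) hq
    fun u x y dG dX du dx => B63b.core hP t g X u x y dG dX du dx hd hg hX hs'

theorem bb : BB63 := by
  obtain ⟨_, _, _, hP⟩ := P.N3.pack
  exact bb' hP

end Pool.Agent.Lib.MP_ab8df0_nt.T.B63
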